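import Pool.Agent.Q59.IB.LFun

/-!
# The analytic Tate conjecture for `Z × C ^ n` over function fields, `Z` over the field of constants

Let `k₀` be a finitely generated field, for instance a NUMBER FIELD, and `Z` an ARBITRARY smooth
projective variety over `k₀`, for instance a point. Let `T` be a geometrically irreducible variety over
`k₀` with the function field `k`, and `C` a curve over `k` (the generic member of a family of curves over
`T`), which is a Galois cover of a smooth projective curve of genus `g ≥ 0`, ramified over some points,
with the group `G` and with ramification indices which divide `N` (in positive characteristic: the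
order of `G` is prime to it). We compare the poles of the L-functions of `X = Z × C ^ n` over `k` at
`j + dim_a k` and of `Z` over `k₀` at `j + dim_a k₀`, and the ranks of the groups of cycles. (If necessary
`k₀` and `k` are replaced by finite extensions over which the endomorphisms of `H ^ 1 (C)` in question
and the algebraic lines below are defined.)

**Cohomology.** The `ℓ`-adic cohomology of `X` is the sum of tensor products of the cohomology of `Z`
and of tensor powers of `H ^ 1 (C)`. With coefficients in an algebraic closure of `ℚ_ℓ`, identified with
`ℂ`, the latter is the direct sum of the `χ ⊗ V_χ`, where `χ` runs through the irreducible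
representations of `G` and `V_χ` belongs to a local system `L_χ`; `ex` is the multiset of the exponents
of the nontrivial eigenvalues of its local monodromies. The structure `LocalSystems` (in
`Pool.Agent.Q59.IB.Covers`) contains these numerical invariants for a finite family of local systems on
one or several curves. An element `γ` of the Galois group of `k` acts on the sum `H` of the `V_i` by a map
`mat γ` which preserves the `V_i` and multiplies the pairings by `cyc γ` (a power of the cyclotomic
character); `det γ i` is the determinant on `V_i`. It acts by `rep γ` on `W = H ^ (2 (j - m)) (Z)`,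
through the Galois group of `k₀`. We study the component of `H ^ (2 j) (X)` of the tensors with `2 m`
factors `V_i` and values in `W`. Let `D` be the group of the maps of `H` which preserve the `V_i` and the
pairings and have determinant one on all `V_i`. For sufficiently general families `D` is the
identity component of the Zariski closure of the image of the geometric fundamental group of `T` (for `T`
the moduli space of the pointed curves with level structures and `G` commutative, `g ≥ 3`:
Looijenga, Boggi; `G` arbitrary, `g` large: Landesman, Litt, Sawin; `g = 0`: Deligne, Mostow, Katz).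

**L-functions.** Let `P` be the set of the closed points of a model `U₀` of `k₀`, `frob v` the Frobenius
of `v ∈ P` and `q v` the number of elements of the residue field. Let `U → U₀` be a model of `T`. By the
theorem of Grothendieck the L-function of the lisse sheaf `F` on `U` which belongs to a component of
`H ^ (2 j) (X)` is the product, over all `v ∈ P` and all `i`, of the
`det (1 - frob v (q v) ^ (- s) | H_c ^ i (U_v, F)) ^ (± 1)`. By Deligne all factors with `i < 2 dim T`
together converge absolutely in a neighbourhood of `s = j + dim_a k`, and the factor with `i = 2 dim T`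
belongs to the coinvariants of the geometric fundamental group of `U_v`, which are isomorphic (for almost
all `v`) to the invariants of `D`. So, after a shift of `s` by `dim T`, the L-function of the component
is the product of a function which has a nonzero limit at `s₀` and of the Euler product of the
invariants of `D` over the `v ∈ P` (`IsLFunction`). The Euler product of the twist of `W` by a character
`ψ` is `LFun ψ`. The twists which occur are those by the characters of the products of `p` pairings and of
determinants of spaces of the total dimension `2 (m - p)`, all of the same weight; their Euler products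
converge absolutely for `s > s₀` (`Converges`).

**Cycles.** `R` is a subfield of `ℂ` over which the representations `χ` are defined (a number field),
`BZ` and `BX` are the spaces of the combinations with coefficients in `R` of the classes of cycles on `Z`
and of their components on `X`. The pairings are algebraic. The product of determinants
`det V_i`, `i = μ j`, is isomorphic to the line of a Fermat variety of degree `N` with the character
`exAll μ`, the union of the `ex i`, up to a Tate twist (Schoen; see
`MP_e12fcd_ag.CoversTimesVarieties`). If `exAll μ` is a union of pairs `(a, -a)` (`Balanced`), or in the family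
generated by the pairs, the standard characters, the characters with four entries and the curve products
(`AlgebraicLine`), then this line is spanned by an algebraic cycle (Shioda, Aoki), and therefore its
character is the power of `cyc` (`DetsAreTate`). External products and contractions of classes of cycles
with products of pairings and these determinants are classes of cycles (`CycleClasses`).

**Exponents.** We suppose (`Tame`) that the exponents of all local systems form doubles `(a, a)` and pairs
`(a, -a)`, with no condition on `N` (for instance: the cover is unramified, or the local monodromies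
form pairs of mutually inverse conjugacy classes, or are conjugate to their inverses, as for the symmetric
groups and all Weyl groups, or `C` is the curve `y ^ m = f (x)` with a generic polynomial `f` of
even degree divisible by `m`), or `|ex i| ≤ B dim V_i` and no element of the finite set
`ExcludedEven (2 B m)` or `ExcludedOdd (2 B m)` divides `N` (all these numbers are at least `55`; `B = 3` is
always sufficient for local systems of rank one).

**The theorem.** Suppose that all exponents form pairs, or that the twists of `W` by the characters of the
products of determinants with nontrivial infinity type (given by the numbers `offset`) have no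
invariants and that their L-functions have neither a pole nor a zero at `s₀` (`TwistsRegular`; this is
the theorem of Hecke if `Z` is a point or if the cohomology of `Z` is spanned by algebraic cycles, and
part of the conjecture for the products of `Z` with Fermat varieties in general). Then there is a
number `n₀`, which depends only on the curves and on `m`, such that the order of the pole
of the L-function of the component of `X` is `n₀` times that of `L (W)`, and the rank of the space of the
classes of cycles is `n₀` times that of `Z`. So **the analytic Tate conjecture for `Z` over `k₀`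
implies the analytic Tate conjecture for `Z × C ^ n` over `k`, for all `n`; in particular it holds for
all `C ^ n` over the function field `k` of `T`, where `T` is a variety over a number field.**
-/

namespace Pool.Agent.Results.MP_223b32_ag.CoversOverFunctionFields

open Filter Topology Pool.Agent.Q59.GC Pool.Agent.Q59.VZ Pool.Agent.Q59.IB

/-- The action of the Galois group `Γ` on the sum `H` of the spaces `V_i` (by `mat γ`, which multiplies
the pairings by `cyc γ` and has the determinant `det γ i` on `V_i`) and on the space `W` (by `rep γ`),
and the Frobenius elements and norms of the closed points of a model of `k₀`. -/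
structure GaloisModule {N : ℕ} {I : Type} [Fintype I] [DecidableEq I] (S : LocalSystems N I)
    (ε : Letter S.labels → ℂ) (W : Type) [AddCommGroup W] [Module ℂ W] where
  Γ : Type
  mat : Γ → Matrix (Letter S.labels) (Letter S.labels) ℂ
  cyc : Γ → ℂ
  det : Γ → I → ℂ
  sim : ∀ γ, IsSimilitude ε (cyc γ) (det γ) (mat γ)
  rep : Γ → W →ₗ[ℂ] W
  P : Type
  frob : P → Γ
  q : P → ℝ

/-- `det (1 - t A) ^ (-1)` -/
noncomputable def eulerFactor {V : Type} [AddCommGroup V] [Module ℂ V] (A : V →ₗ[ℂ] V) (t : ℂ) : ℂ :=
  (LinearMap.det (LinearMap.id - t • A))⁻¹

/-- The exponents of the products of determinants which are known to be algebraic. -/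
def KnownLine {N : ℕ} (u : Multiset (ZMod N)) : Prop := Balanced u ∨ AlgebraicLine N u

section

variable {N : ℕ} {I : Type} [Fintype I] [DecidableEq I] {S : LocalSystems N I}
  {ε : Letter S.labels → ℂ} {W : Type} [AddCommGroup W] [Module ℂ W]

/-- the character of a product of `p` pairings and the determinants of the `V_i`, `i = μ j` -/
noncomputable def GaloisModule.char (G : GaloisModule S ε W) {l : ℕ} (μ : Fin l → I) (p : ℕ)
    (γ : G.Γ) : ℂ := (∏ j, G.det γ (μ j)) * G.cyc γ ^ p

/-- the Euler factor at `v` of the twist of `W` by the character `ψ` -/
noncomputable def GaloisModule.factor (G : GaloisModule S ε W) (ψ : G.Γ → ℂ) (s : ℝ) (v : G.P) : ℂ :=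
  eulerFactor (ψ (G.frob v) • G.rep (G.frob v)) ((G.q v : ℂ) ^ (-(s : ℂ)))

/-- the L-function of the twist of `W` by the character `ψ` -/
noncomputable def GaloisModule.LFun (G : GaloisModule S ε W) (ψ : G.Γ → ℂ) (s : ℝ) : ℂ :=
  ∏' v, G.factor ψ s v

/-- the Euler products of the twists of `W` by the characters of the products of pairings and
determinants of the degree `2 m` converge for `s > s₀` -/
def GaloisModule.Converges (G : GaloisModule S ε W) (m : ℕ) (s₀ : ℝ) : Prop :=
  ∀ (l : ℕ) (μ : Fin l → I) (p : ℕ), (∑ j, S.dim (μ j)) + 2 * p = 2 * m →
    ∀ s > s₀, Multipliable (G.factor (G.char μ p) s)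

/-- the tensors with `2 m` factors `V_i` and values in `W` -/
abbrev Tensors (S : LocalSystems N I) (W : Type) (m : ℕ) : Type :=
  (Fin (2 * m) → Letter S.labels) → W

/-- the action on the tensors -/
noncomputable def GaloisModule.act (G : GaloisModule S ε W) (m : ℕ) (γ : G.Γ) :
    Tensors S W m →ₗ[ℂ] Tensors S W m := theta (Fin (2 * m)) (G.mat γ) (G.rep γ)

/-- the space of the tensors invariant under `D` -/
def Inv (S : LocalSystems N I) (ε : Letter S.labels → ℂ) (W : Type) [AddCommGroup W] [Module ℂ W]
    (m : ℕ) : Submodule ℂ (Tensors S W m) := invariants ε (Fin (2 * m)) W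

/-- the invariants of `D` are stable -/
def GaloisModule.Stable (G : GaloisModule S ε W) (m : ℕ) : Prop :=
  ∀ γ, ∀ x ∈ Inv S ε W m, G.act m γ x ∈ Inv S ε W m

/-- the action on the invariants of `D` -/
noncomputable def GaloisModule.actInv (G : GaloisModule S ε W) {m : ℕ} (h : G.Stable m) (γ : G.Γ) :
    Inv S ε W m →ₗ[ℂ] Inv S ε W m := (G.act m γ).restrict (h γ)

/-- the Euler factor at `v` of the invariants of `D` -/
noncomputable def GaloisModule.factorX (G : GaloisModule S ε W) {m : ℕ} (h : G.Stable m) (s : ℝ)
    (v : G.P) : ℂ :=
  eulerFactor (G.actInv h (G.frob v)) ((G.q v : ℂ) ^ (-(s : ℂ)))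

/-- `L` is the L-function of the component of the tensors with `2 m` factors: for `s > s₀` it is the
product of a function with a nonzero limit at `s₀` and the Euler product of the invariants of `D`. -/
def GaloisModule.IsLFunction (G : GaloisModule S ε W) (m : ℕ) (s₀ : ℝ) (L : ℝ → ℂ) : Prop :=
  ∃ (stab : G.Stable m) (h : ℝ → ℂ) (c : ℂ), c ≠ 0 ∧ Tendsto h (𝓝[>] s₀) (𝓝 c) ∧
    ∀ s > s₀, L s = h s * ∏' v, G.factorX stab s v

/-- Products of determinants which are known to be algebraic have as character a power of `cyc`. -/
def DetsAreTate (G : GaloisModule S ε W) : Prop :=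
  ∀ (l : ℕ) (μ : Fin l → I) (m : ℕ), KnownLine (exAll S.labels μ) →
    ∑ j, S.dim (μ j) = 2 * m → ∀ γ, ∏ j, G.det γ (μ j) = G.cyc γ ^ m

/-- The twists of `W` by the characters of the products of pairings and determinants of the degree
`2 m` with nontrivial infinity type have no invariants, and their L-functions have no pole and no
zero at `s₀`. -/
def TwistsRegular (G : GaloisModule S ε W) (m : ℕ) (s₀ : ℝ) : Prop :=
  ∀ (l : ℕ) (μ : Fin l → I) (p : ℕ), (∑ j, S.dim (μ j)) + 2 * p = 2 * m →
    (∃ t : (ZMod N)ˣ, offset (t : ZMod N) (exAll S.labels μ) ≠ 0) →
    HasPole (G.LFun (G.char μ p)) s₀ 0 ∧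
    ∀ z : W, (∀ γ, G.char μ p γ • G.rep γ z = z) → z = 0

/-- The combinations with coefficients in the field `R` of the classes of the cycles on `Z` and on
`X` (with `2 * m` tensor factors): the classes on `X` are invariant under `D` and under the Galois group,
and external products and contractions with products of pairings and known determinants are classes
of cycles. -/
structure CycleClasses (G : GaloisModule S ε W) (R : Subfield ℂ) (m : ℕ) where
  BZ : Submodule R W
  BX : Submodule R (Tensors S W m)
  inv : ∀ x ∈ BX, x ∈ Inv S ε W m
  fixed : ∀ x ∈ BX, ∀ γ, G.act m γ x = x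
  ext : ∀ (d : Data S.labels (Fin (2 * m))), KnownLine (exAll S.labels d.μ) →
    ∀ z ∈ BZ, (fun w => d.val ε w • z) ∈ BX
  con : ∀ (d : Data S.labels (Fin (2 * m))), KnownLine (exAll S.labels d.μ) →
    ∀ x ∈ BX, contract (d.val ε) x ∈ BZ

/-- The space `B` has finite dimension, and this is the order of the pole of `L`. -/
def AnalyticTate {R : Subfield ℂ} {V : Type} [AddCommGroup V] [Module ℂ V] (B : Submodule R V)
    (L : ℝ → ℂ) (s₀ : ℝ) : Prop :=
  Module.Finite R B ∧ HasPole L s₀ (Module.finrank R B)

/-- The order of the pole of `L` and the dimension of `BX` are `n₀` times those of `L (W)` and `BZ`. -/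
structure Multiplies (G : GaloisModule S ε W) {R : Subfield ℂ} {m : ℕ} (B : CycleClasses G R m)
    (L : ℝ → ℂ) (s₀ : ℝ) (n₀ : ℕ) : Prop where
  pole : ∀ r, HasPole (G.LFun fun γ => G.cyc γ ^ m) s₀ r → HasPole L s₀ (n₀ * r)
  cycles : Nonempty ((Fin n₀ → B.BZ) ≃ₗ[R] B.BX)
  tate : AnalyticTate B.BZ (G.LFun fun γ => G.cyc γ ^ m) s₀ → AnalyticTate B.BX L s₀

end

/-- The analytic Tate conjecture for the components of `X` follows from that for the components of `Z`,
with the factor `n₀`. -/
def Comparison {N : ℕ} [NeZero N] {I : Type} [Fintype I] [DecidableEq I] (S : LocalSystems N I)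
    (ε : Letter S.labels → ℂ) (m n₀ : ℕ) : Prop :=
  ∀ (W : Type) [AddCommGroup W] [Module ℂ W] [Module.Finite ℂ W] (G : GaloisModule S ε W) (s₀ : ℝ),
    G.Converges m s₀ → DetsAreTate G → ((∀ i, Balanced (S.ex i)) ∨ TwistsRegular G m s₀) →
    ∀ (R : Subfield ℂ) (B : CycleClasses G R m) (L : ℝ → ℂ), G.IsLFunction m s₀ L →
      Multiplies G B L s₀ n₀

/-- **The analytic Tate conjecture for the products of an arbitrary variety over the field of constants
with powers of curves over a function field.** -/
theorem result (N : ℕ) [NeZero N] (I : Type) [Fintype I] [DecidableEq I] (S : LocalSystems N I)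
    (ε : Letter S.labels → ℂ) (hε : ∀ x : Letter S.labels, ¬ S.alt x.1 = true → ε (dual x) = -ε x)
    (hε1 : ∀ x, ε x = 1 ∨ ε x = -1) (m : ℕ) (htame : Tame S (2 * m)) :
    ∃ n₀ : ℕ, Comparison S ε m n₀ := by
  classical
  have hε0 : ∀ x, ε x ≠ 0 := fun x => by
    rcases hε1 x with h | h
    · rw [h]; exact one_ne_zero
    · rw [h]; exact neg_ne_zero.mpr one_ne_zero
  obtain ⟨n, d, hd, hpos, hall⟩ := exists_comb (Λ := S.labels) ε hε hε0 (Fin (2 * m))
  -- the elements of the basis with trivial infinity type
  let J : Finset (Fin n) := Finset.univ.filter fun j =>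
    ∀ t : (ZMod N)ˣ, offset (t : ZMod N) (exAll S.labels (d j).μ) = 0
  let e : Fin J.card ≃ J := J.equivFin.symm
  have hJ : ∀ j ∈ J, ∀ t : (ZMod N)ˣ, offset (t : ZMod N) (exAll S.labels (d j).μ) = 0 := fun j hj =>
    (Finset.mem_filter.mp hj).2
  have hcard : ∀ j, (∑ i, S.dim ((d j).μ i)) + 2 * (d j).p = 2 * m := fun j => by
    have h1 := (d j).card
    rw [Fintype.card_fin] at h1
    exact h1
  have hknown : ∀ j ∈ J, KnownLine (exAll S.labels (d j).μ) := by
    intro j hj
    rcases algebraicLine_of_offset htame (hpos j) (by have := hcard j; omega) (hJ j hj) with h | h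
    · refine Or.inl ⟨0, ?_⟩
      rw [h]
      simp
    · exact Or.inr h
  refine ⟨J.card, fun W _ _ _ G s₀ hconv hT hreg R B L hL => ?_⟩
  -- the characters of the elements in `J`
  have hchar : ∀ j ∈ J, ∀ γ, G.char (d j).μ (d j).p γ = G.cyc γ ^ m := by
    intro j hj γ
    have h1 : ∑ i, S.dim ((d j).μ i) = 2 * (m - (d j).p) := by have := hcard j; omega
    have h2 : (m - (d j).p) + (d j).p = m := by have := hcard j; omega
    unfold GaloisModule.char
    rw [hT _ _ _ (hknown j hj) h1 γ, ← pow_add, h2]
  -- the other elements
  have hother : ∀ j ∉ J, HasPole (G.LFun (G.char (d j).μ (d j).p)) s₀ 0 ∧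
      ∀ z : W, (∀ γ, G.char (d j).μ (d j).p γ • G.rep γ z = z) → z = 0 := by
    intro j hj
    have h1 : ∃ t : (ZMod N)ˣ, offset (t : ZMod N) (exAll S.labels (d j).μ) ≠ 0 := by
      by_contra h
      push Not at h
      exact hj (Finset.mem_filter.mpr ⟨Finset.mem_univ _, h⟩)
    rcases hreg with hbal | hreg
    · exfalso
      obtain ⟨t, ht⟩ := h1
      exact ht ((Balanced.sum _ _ fun i => hbal ((d j).μ i)).offset_eq
        (exAll_zero_notMem (Λ := S.labels) _) t)
    · exact hreg _ _ _ (hcard j) h1
  -- the L-function
  have hpole : ∀ r, HasPole (G.LFun fun γ => G.cyc γ ^ m) s₀ r → HasPole L s₀ (J.card * r) := by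
    intro r hr
    obtain ⟨stab, h, c, hc, hlim, hLs⟩ := hL
    have h1 : HasPole (fun s => ∏ j, G.LFun (G.char (d j).μ (d j).p) s) s₀
        (∑ j : Fin n, if j ∈ J then r else 0) := by
      refine HasPole.prod _ fun j _ => ?_
      by_cases hj : j ∈ J
      · rw [if_pos hj]
        have h2 : G.char (d j).μ (d j).p = fun γ => G.cyc γ ^ m := funext (hchar j hj)
        rw [h2]
        exact hr
      · rw [if_neg hj]
        exact (hother j hj).1
    have h2 : (∑ j : Fin n, if j ∈ J then r else 0) = J.card * r := by
      rw [Finset.sum_ite_mem, Finset.univ_inter, Finset.sum_const, smul_eq_mul]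
    rw [h2] at h1
    have h3 : HasPole h s₀ 0 := ⟨c, hc, by simpa using hlim⟩
    have h4 := h3.mul h1
    rw [zero_add] at h4
    refine h4.congr fun s hs => ?_
    rw [hLs s hs]
    congr 1
    unfold GaloisModule.LFun
    rw [← Multipliable.tprod_finsetProd fun j _ => hconv _ _ _ (hcard j) s hs]
    refine tprod_congr fun v => ?_
    obtain ⟨stab', hdet⟩ := det_invariants hε hε0 hd (hall W) (G.sim (G.frob v)) (G.rep (G.frob v))
    have h5 := hdet ((G.q v : ℂ) ^ (-(s : ℂ)))
    unfold GaloisModule.factor GaloisModule.char GaloisModule.factorX eulerFactor
    rw [Finset.prod_inv_distrib]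
    congr 1
    exact h5.symm
  -- the cycles
  have hmem : ∀ x ∈ B.BX, ∃ z : Fin J.card → W, x = Pool.Agent.Q59.IB.comb
      (fun j => (d (e j)).val ε) z := by
    intro x hx
    obtain ⟨z, hz⟩ := hall W x (B.inv x hx)
    have h1 : ∀ j ∉ J, z j = 0 := by
      intro j hj
      refine (hother j hj).2 (z j) fun γ => ?_
      have h2 := B.fixed x hx γ
      refine coord_fixed hd (g := G.mat γ)
        (ψ := fun j => (∏ i, G.det γ ((d j).μ i)) * G.cyc γ ^ (d j).p)
        (fun j w => act_prodOf (G.sim γ) _ _ _ w) (G.rep γ) (z := z) (fun w => ?_) j
      rw [hz] at h2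
      exact congrFun h2 w
    refine ⟨fun j => z (e j), ?_⟩
    rw [hz, comb_apply, comb_apply, ← Finset.sum_subset (Finset.subset_univ J)]
    · rw [← Finset.sum_coe_sort J fun j => (fun w => (d j).val ε w • z j)]
      exact (e.sum_comp fun j : J => (fun w => (d j).val ε w • z j)).symm
    · intro j _ hj
      rw [h1 j hj]
      funext w
      simp
  have hd' : LinearIndependent ℂ (fun j => (d (e j)).val ε) :=
    hd.comp (fun j : Fin J.card => ((e j : J) : Fin n)) fun i j h => e.injective (Subtype.ext h)
  have hcyc : Nonempty ((Fin J.card → B.BZ) ≃ₗ[R] B.BX) := by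
    refine equiv_of_coords
      ((Pool.Agent.Q59.IB.comb (W := W) fun j => (d (e j)).val ε).restrictScalars R)
      (fun z z' h => comb_injective hd' h) (fun z => ⟨fun hz j => ?_, fun hz => ?_⟩)
      fun x hx => hmem x hx
    · exact mem_of_contract_field hd' (fun j w => val_int hε1 (d (e j)) w) R
        (fun k => B.con _ (hknown _ (e k).2) _ hz) j
    · change Pool.Agent.Q59.IB.comb (fun j => (d (e j)).val ε) z ∈ B.BX
      rw [comb_apply]
      exact Submodule.sum_mem _ fun j _ => B.ext _ (hknown _ (e j).2) _ (hz j)
  refine ⟨hpole, hcyc, fun h => ?_⟩
  obtain ⟨hfin, hp⟩ := h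
  obtain ⟨E⟩ := hcyc
  refine ⟨Module.Finite.equiv E, ?_⟩
  have h1 : Module.finrank R B.BX = J.card * Module.finrank R B.BZ := by
    rw [← E.finrank_eq, Module.finrank_pi_fintype, Finset.sum_const, Finset.card_univ,
      Fintype.card_fin, smul_eq_mul]
  rw [h1]
  exact hpole _ hp

end Pool.Agent.Results.MP_223b32_ag.CoversOverFunctionFields
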