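import Pool.Agent.Q282.TP.Defs

/-!
# Tate's conjecture on the pole of `L(H^(2m)(X), s)` at `s = m + 1` for products of powers of hyperelliptic curves

Let `K` be a number field with the ring of integers `𝓞`, for instance `K = ℚ`, and let `C_1, ..., C_s` be hyperelliptic curves of
genus `g_i`, `C_i : y ^ 2 = f_i(x)`, `f_i` a monic polynomial of degree `2 g_i + 1` over `𝓞`. Let `X` be a product of `n` curves
taken from the `C_i`, repetitions allowed: the factor number `j` is `C_{π(j)}`, and `C_i` appears at most `2 g_i + 1` times. For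
distinct curves without correspondences and with `ℤ` as the ring of endomorphisms of the Jacobians, the cycles of codimension `m`
on `X` are, up to homological equivalence, generated by the products of the classes of points of some factors and of the classes of
diagonals of disjoint pairs of equal factors, modulo the classes of fibres (invariants of the symplectic groups). These are
`ρ_m = ∑_c ∏_i (k_i(c) - 1)!!`
classes, the sum over the types `c ∈ {0, 1, 2} ^ n`, `c_1 + ⋯ + c_n = 2 m`, for which the numbers `k_i(c)` of the factors `C_i` with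
`c_j = 1` are all even: points for `c_j = 2`, and `(k - 1)!!` is the number of the ways to divide `k` factors into pairs. Tate's
conjecture predicts a pole of the order `ρ_m` of `L(H^(2m)(X), s)` at `s = m + 1`.

Let `P_m(Y)` be the product of the Euler factors of `L(H^(2m)(X), s)` at `s = m + 1` over the good primes of norm at most `Y` and
`Z(Y)` the product of the Euler factors of the zeta function of `K` at `s = 1`, so that a pole of order `ρ` corresponds to
`P_m(Y) ∼ const ⋅ Z(Y) ^ ρ`. Let the coordinates of the coefficients of the `f_i` in a `ℤ`-basis of `𝓞` be taken at random in any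
box with sides at least `T`. It is proved, unconditionally, that for every `ε > 0` and `A > 0` there is a `c > 0` such that, outside a
proportion `O (X₀ ^ (-A))` of exceptions, for all `m = 0, ..., n` at the same time and all `X₀ ≤ Y ≤ Y' ≤ T ^ c`
`log (P_m(Y') / P_m(Y)) = ρ_m log (Z(Y') / Z(Y)) + O (Y ^ (-1 / 2 + ε))`,
and `|log P_m(Y) - ρ_m log log Y| ≤ C log log X₀`. So the truncated products show exactly the pole of Tate's conjecture, with the
remainder that follows from the Riemann hypothesis for all the constituents of `H^(2m)(X)` of the predicted types.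

Proof. The logarithm of the Euler factor at `v` is `q ^ (-1) ∑_c ∏_{c_j = 1} a_v(C_{π(j)}) + O (q ^ (-2))`, `q = N v`,
`a_v = (#C(k_v) - q - 1) / √q`. The moments of `a_v` of order at most `2 g + 1` over the polynomials of degree `2 g + 1` over the
residue field are the moments `(k - 1)!!` of a normal variable up to `O (1 / q)`. The sums over the primes in dyadic intervals are
estimated by high moments (the chinese remainder theorem and exponential moments).
-/

set_option autoImplicit false

namespace Pool.Agent.Results.MP_223b32_ag.PowersOfCurves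

open Finset NumberField Polynomial
open Q282.PX Q282.TP

/-- `ρ_m`: the sum over the types `c` with `c_1 + ... + c_n = 2 m`, for which the numbers `k_i` of the indices `j` with `c_j = 1` and
`π(j) = i` are all even, of the products of the `(k_i - 1)!!`. -/
def order {n s : ℕ} (π : Fin n → Fin s) (m : ℕ) : ℕ :=
  ∑ c ∈ types n (2 * m), ∏ i : Fin s,
    if Even (univ.filter fun j => c j = 1 ∧ π j = i).card then Nat.doubleFactorial ((univ.filter fun j => c j = 1 ∧ π j = i).card - 1) else 0

/-- The polynomials `f_i = X ^ (2 g_i + 1) + u (i, 2 g_i) X ^ (2 g_i) + ... + u (i, 0)`. -/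
noncomputable def polynomials {R : Type} [CommRing R] {s : ℕ} {g : Fin s → ℕ} (u : (Σ i : Fin s, Fin (2 * g i + 1)) → R) (i : Fin s) : R[X] :=
  X ^ (2 * g i + 1) + ∑ l, C (u ⟨i, l⟩) * X ^ (l : ℕ)

/-- With `P_m(Y)`, the product of the Euler factors of `L(H^(2m)(C_{π(1)} × ... × C_{π(n)}), s)` at `s = m + 1` over the primes `v`
of norm at most `Y` not dividing two with squarefree `f_{π(j)}` modulo `v`, `C_i : y ^ 2 = f_i(x)`, and `Z(Y)`, the product of the
Euler factors of the zeta function of `K` at `s = 1`, for all `m = 0, ..., n`: `P_m(Y) > 0` and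
`|log (P_m(Y') / P_m(Y)) - ρ_m log (Z(Y') / Z(Y))| ≤ Y ^ (-1 / 2 + ε)` for all integers `X₀ ≤ Y ≤ Y' ≤ W`, and
`|log P_m(Y) - ρ_m log log Y| ≤ C log log X₀` for all integers `X₀ ≤ Y ≤ W`. -/
def Typical (K : Type) [Field K] [NumberField K] {n s : ℕ} (π : Fin n → Fin s) (ε C : ℝ) (X₀ : ℕ) (W : ℝ) (f : Fin s → (𝓞 K)[X]) : Prop :=
  ∀ m : ℕ, m ≤ n →
    (∀ Y Y' : ℕ, X₀ ≤ Y → Y ≤ Y' → (Y' : ℝ) ≤ W → 0 < productT (fun j => f (π j)) m Y ∧
      |Real.log (productT (fun j => f (π j)) m Y' / productT (fun j => f (π j)) m Y) -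
        order π m * Real.log (zetaP K Y' / zetaP K Y)| ≤ (Y : ℝ) ^ (-1 / 2 + ε)) ∧
    ∀ Y : ℕ, X₀ ≤ Y → (Y : ℝ) ≤ W →
      |Real.log (productT (fun j => f (π j)) m Y) - order π m * Real.log (Real.log Y)| ≤ C * Real.log (Real.log X₀)

/-! ### Proofs -/

lemma order_eq {n s : ℕ} (π : Fin n → Fin s) (m : ℕ) : (order π m : ℝ) = ordT π (types n (2 * m)) := by
  unfold order ordT
  push_cast
  refine sum_congr rfl fun c _ => prod_congr rfl fun i _ => ?_
  have h1 : km π c i = (univ.filter fun j => c j = 1 ∧ π j = i).card := by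
    unfold km ones
    rw [filter_filter]
  rw [h1]
  unfold Pool.Agent.Y57.FD.Mom.normal
  split_ifs
  · rfl
  · norm_num

open Classical in
/-- Let `K` be a number field, let `C_i : y ^ 2 = f_i(x)`, `i = 1, ..., s`, be the curves with the polynomials
`f_i = X ^ (2 g_i + 1) + ...` over the ring of integers of `K`, and let `X = C_{π(1)} × ... × C_{π(n)}`, where every value `i` is taken
by `π` at most `2 g_i + 1` times. For all `ε > 0` and `A > 0` there are `c > 0` and `C` with the following property. Let `b` be a basis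
of the ring of integers over `ℤ`, let a box `N k ≤ ν k < N k + L k` be given all sides of which are at least `T`, and `X₀ ≥ 16`. Then
for all but at most a proportion `C X₀ ^ (-A)` of the `ν` of the box the polynomials with the coefficients `t = comb b ν`,
`t k = ∑ ν (k, l) b l`, have the following property for all `m = 0, ..., n`. Let `P_m(Y)` be the product of the Euler factors of
`L(H^(2m)(X), s)` at `s = m + 1` over the good primes of norm at most `Y`, `Z(Y)` the same for the zeta function of `K` at `s = 1`.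
Then `|log (P_m(Y') / P_m(Y)) - ρ_m log (Z(Y') / Z(Y))| ≤ Y ^ (-1 / 2 + ε)` for all `X₀ ≤ Y ≤ Y' ≤ T ^ c`, and
`|log P_m(Y) - ρ_m log log Y| ≤ C log log X₀` for all `X₀ ≤ Y ≤ T ^ c`, where `ρ_m = order π m`. -/
theorem result (K : Type) [Field K] [NumberField K] (s n : ℕ) (g : Fin s → ℕ) (π : Fin n → Fin s)
    (hπ : ∀ i, (univ.filter fun j => π j = i).card ≤ 2 * g i + 1) (ε A : ℝ) (hε : 0 < ε) (hA : 0 < A) :
    ∃ c : ℝ, 0 < c ∧ ∃ C : ℝ, ∀ (b : Module.Basis (Fin (Module.finrank ℚ K)) ℤ (𝓞 K))
      (N : (Σ i : Fin s, Fin (2 * g i + 1)) × Fin (Module.finrank ℚ K) → ℤ)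
      (L : (Σ i : Fin s, Fin (2 * g i + 1)) × Fin (Module.finrank ℚ K) → ℕ) (T : ℝ), 0 < T → (∀ k, T ≤ L k) → ∀ X₀ : ℕ, 16 ≤ X₀ →
      (((Q282.GK.kbox N L).filter fun ν => ¬ Typical K π ε C X₀ (T ^ c) (polynomials (Q282.GK.comb b ν))).card : ℝ) ≤
        C * (X₀ : ℝ) ^ (-A) * ∏ k, (L k : ℝ) := by
  obtain ⟨ε', hε'⟩ : ∃ ε' : ℝ, ε' = min ε (1 / 4) := ⟨_, rfl⟩
  have hε'0 : 0 < ε' := by rw [hε']; exact lt_min hε (by norm_num)
  have hε'1 : ε' ≤ 1 / 4 := by rw [hε']; exact min_le_right _ _
  have hε'2 : ε' ≤ ε := by rw [hε']; exact min_le_left _ _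
  have hkm : ∀ (c : Fin n → Fin 3) (i : Fin s), km π c i ≤ 2 * g i + 1 := by
    intro c i
    refine le_trans ?_ (hπ i)
    unfold km
    exact card_le_card (filter_subset_filter _ (subset_univ _))
  have hloc := fun m : ℕ => loc_T K g π m (fun c _ i => hkm c i)
  choose B hB hloc using hloc
  have hedge := fun m : ℕ => edge K (Jx g) (B m) ε' A (hB m) hε'0 hA
  choose cf hcf Cf hCf hedge using hedge
  obtain ⟨c, hc, hcmin⟩ := Q282.NF.exists_min (s := range (n + 1)) cf hcf
  obtain ⟨M, hM0, hM⟩ := inv_sum K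
  obtain ⟨Bs, hBs⟩ : ∃ Bs : ℝ, Bs = ∑ m ∈ range (n + 1), B m := ⟨_, rfl⟩
  obtain ⟨Rs, hRs⟩ : ∃ Rs : ℝ, Rs = ∑ m ∈ range (n + 1), (order π m : ℝ) := ⟨_, rfl⟩
  have hBs0 : 0 ≤ Bs := by rw [hBs]; exact sum_nonneg fun m _ => (hB m).le
  have hRs0 : 0 ≤ Rs := by rw [hRs]; positivity
  have hBm : ∀ m ≤ n, B m ≤ Bs := fun m hm => by
    rw [hBs]
    exact single_le_sum (f := B) (fun m _ => (hB m).le) (mem_range.2 (by omega))
  have hRm : ∀ m ≤ n, (order π m : ℝ) ≤ Rs := fun m hm => by
    rw [hRs]
    exact single_le_sum (f := fun m => (order π m : ℝ)) (fun m _ => Nat.cast_nonneg _) (mem_range.2 (by omega))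
  obtain ⟨C, hC⟩ : ∃ C : ℝ, C = ∑ m ∈ range (n + 1), Cf m + (1 + Bs * (1 + M) + Rs * M) := ⟨_, rfl⟩
  have hCf0 : 0 ≤ ∑ m ∈ range (n + 1), Cf m := sum_nonneg fun m _ => hCf m
  have hrest : 0 ≤ 1 + Bs * (1 + M) + Rs * M := by positivity
  refine ⟨c, hc, C, fun b N L T hT0 hTL X₀ hX₀ => ?_⟩
  have hb : ∀ x : 𝓞 K, ∃ a : Fin (Module.finrank ℚ K) → ℤ, x = ∑ j, (a j : 𝓞 K) * b j := by
    intro x
    refine ⟨fun j => b.repr x j, ?_⟩
    have h1 := b.sum_repr x
    rw [← h1]
    refine sum_congr rfl fun j _ => ?_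
    rw [h1, zsmul_eq_mul]
  have hX₀' : (16 : ℝ) ≤ X₀ := by exact_mod_cast hX₀
  have hP0 : 0 < ∏ k, (L k : ℝ) := prod_pos fun k _ => hT0.trans_le (hTL k)
  have hXA : 0 < (X₀ : ℝ) ^ (-A) := by positivity
  have hpol : ∀ t : (Σ i : Fin s, Fin (2 * g i + 1)) → 𝓞 K, (polynomials t : Fin s → (𝓞 K)[X]) = cu t := fun t => rfl
  -- log log X₀ ≥ 1
  have hll : 1 ≤ Real.log (Real.log X₀) := by
    have h1 : Real.exp 1 ^ 4 ≤ (3 : ℝ) ^ 4 := pow_le_pow_left₀ (Real.exp_pos _).le Real.exp_one_lt_three.le 4
    have h2 : Real.exp 1 ≤ Real.log X₀ := by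
      have h3 : (4 : ℝ) * Real.log 2 ≤ Real.log X₀ := by
        rw [← Real.log_rpow (by norm_num)]
        refine Real.log_le_log (by positivity) ?_
        norm_num
        exact_mod_cast hX₀
      have h4 := Real.log_two_gt_d9
      have h5 := Real.exp_one_lt_d9
      linarith
    rw [Real.le_log_iff_exp_le (by linarith [Real.exp_pos 1])]
    exact h2
  -- the exceptional sets
  obtain ⟨E, hE⟩ : ∃ E : ℕ → Finset ((Σ i : Fin s, Fin (2 * g i + 1)) × Fin (Module.finrank ℚ K) → ℤ), E = fun m =>
      (Q282.GK.kbox N L).filter fun ν => ∃ X X' : ℕ, X₀ ≤ X ∧ X ≤ X' ∧ (X' : ℝ) ≤ T ^ cf m ∧ (X : ℝ) ^ (-1 / 2 + ε') <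
        |∑ v ∈ Q282.GK.SX K X', (valT (fun j => cu (Q282.GK.comb b ν) (π j)) m v - ordT π (types n (2 * m)) * zv v) -
          ∑ v ∈ Q282.GK.SX K X, (valT (fun j => cu (Q282.GK.comb b ν) (π j)) m v - ordT π (types n (2 * m)) * zv v)| := ⟨_, rfl⟩
  have h1 : ∀ m ∈ range (n + 1), ((E m).card : ℝ) ≤ Cf m * (X₀ : ℝ) ^ (-A) * ∏ k, (L k : ℝ) := by
    intro m _
    refine hedge m (fun j => b j) hb (fun v t => valT (fun j => cu t (π j)) m v - ordT π (types n (2 * m)) * zv v) (hloc m) N L T hT0 hTL X₀
      (by omega) (E m) (by rw [hE]; exact filter_subset _ _) ?_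
    intro ν hν
    rw [hE] at hν
    exact (mem_filter.1 hν).2
  have h3 : ((Q282.GK.kbox N L).filter fun ν => ¬ Typical K π ε C X₀ (T ^ c) (polynomials (Q282.GK.comb b ν))) ⊆ (range (n + 1)).biUnion E := by
    intro ν hν
    rw [mem_filter] at hν
    by_contra hno
    rw [mem_biUnion] at hno
    push Not at hno
    refine hν.2 fun m hm => ?_
    rw [hpol]
    obtain ⟨S, hS⟩ : ∃ S : ℕ → ℝ, S = fun Y => ∑ v ∈ Q282.GK.SX K Y, (valT (fun j => cu (Q282.GK.comb b ν) (π j)) m v - ordT π (types n (2 * m)) * zv v) := ⟨_, rfl⟩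
    have hgood : ∀ Y Y' : ℕ, X₀ ≤ Y → Y ≤ Y' → (Y' : ℝ) ≤ T ^ c → |S Y' - S Y| ≤ (Y : ℝ) ^ (-1 / 2 + ε') := by
      intro Y Y' hY hYY hYT
      have h4 := hno m (mem_range.2 (by omega))
      rw [hE] at h4
      by_contra h5
      push Not at h5
      have hY1 : (1 : ℝ) ≤ T ^ c := by
        have : (X₀ : ℝ) ≤ Y' := by exact_mod_cast hY.trans hYY
        linarith
      have hT1 : 1 ≤ T := by
        by_contra hlt
        push Not at hlt
        have := Real.rpow_lt_one hT0.le hlt hc
        linarith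
      refine h4 (mem_filter.2 ⟨hν.1, Y, Y', hY, hYY, hYT.trans (Real.rpow_le_rpow_of_exponent_le hT1 (hcmin m (mem_range.2 (by omega)))), ?_⟩)
      rw [hS] at h5
      exact h5
    have hlogP := log_productT (fun j => cu (Q282.GK.comb b ν) (π j)) m
    have hlogZ := log_zetaP (K := K)
    have hSY : ∀ Y, S Y = Real.log (productT (fun j => cu (Q282.GK.comb b ν) (π j)) m Y) - order π m * Real.log (zetaP K Y) := by
      intro Y
      rw [hS, (hlogP Y).2, (hlogZ Y).2, order_eq]
      show ∑ v ∈ Q282.GK.SX K Y, (valT (fun j => cu (Q282.GK.comb b ν) (π j)) m v - ordT π (types n (2 * m)) * zv v) = _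
      rw [sum_sub_distrib, ← mul_sum]
    refine ⟨fun Y Y' hY hYY hYT => ⟨(hlogP Y).1, ?_⟩, fun Y hY hYT => ?_⟩
    · rw [Real.log_div (hlogP Y').1.ne' (hlogP Y).1.ne', Real.log_div (hlogZ Y').1.ne' (hlogZ Y).1.ne']
      have h4 := hgood Y Y' hY hYY hYT
      rw [hSY, hSY] at h4
      have h5 : Real.log (productT (fun j => cu (Q282.GK.comb b ν) (π j)) m Y') - Real.log (productT (fun j => cu (Q282.GK.comb b ν) (π j)) m Y) -
          order π m * (Real.log (zetaP K Y') - Real.log (zetaP K Y)) =
          (Real.log (productT (fun j => cu (Q282.GK.comb b ν) (π j)) m Y') - order π m * Real.log (zetaP K Y')) -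
          (Real.log (productT (fun j => cu (Q282.GK.comb b ν) (π j)) m Y) - order π m * Real.log (zetaP K Y)) := by ring
      rw [h5]
      refine h4.trans (Real.rpow_le_rpow_of_exponent_le ?_ (by linarith))
      have : (16 : ℝ) ≤ Y := by
        have : (X₀ : ℝ) ≤ Y := by exact_mod_cast hY
        linarith
      linarith
    · have h4 := hgood X₀ Y le_rfl hY hYT
      have h5 : (X₀ : ℝ) ^ (-1 / 2 + ε') ≤ 1 := Real.rpow_le_one_of_one_le_of_nonpos (by linarith) (by linarith)
      have h6 : |S X₀| ≤ B m * (Real.log (Real.log X₀) + M) := by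
        rw [hS]
        refine (abs_sum_le_sum_abs _ _).trans ?_
        have h7 : ∀ v ∈ Q282.GK.SX K X₀, |valT (fun j => cu (Q282.GK.comb b ν) (π j)) m v - ordT π (types n (2 * m)) * zv v| ≤ B m * zv v := by
          intro v _
          have h8 := z_le (hloc m) v (Q282.GK.comb b ν)
          refine h8.trans ?_
          rw [div_eq_mul_one_div]
          refine mul_le_mul_of_nonneg_left ?_ (hB m).le
          have h9 := two_le v
          have h10 : 1 / (Ideal.absNorm v.asIdeal : ℝ) ≤ 1 / 2 := one_div_le_one_div_of_le (by norm_num) h9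
          unfold zv
          have h11 := Real.log_le_sub_one_of_pos (by linarith : 0 < 1 - 1 / (Ideal.absNorm v.asIdeal : ℝ))
          linarith
        refine (sum_le_sum h7).trans ?_
        rw [← mul_sum]
        refine mul_le_mul_of_nonneg_left ?_ (hB m).le
        have h12 := hM X₀ (by omega)
        have h13 := (abs_le.1 h12).2
        linarith
      have h7 : |Real.log (zetaP K Y) - Real.log (Real.log Y)| ≤ M := by
        rw [(hlogZ Y).2]
        exact hM Y (by omega)
      have h8 : Real.log (productT (fun j => cu (Q282.GK.comb b ν) (π j)) m Y) - order π m * Real.log (Real.log Y) =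
          (S Y - S X₀) + S X₀ + order π m * (Real.log (zetaP K Y) - Real.log (Real.log Y)) := by
        rw [hSY Y]
        ring
      rw [h8]
      have h9 : |(order π m : ℝ) * (Real.log (zetaP K Y) - Real.log (Real.log Y))| ≤ Rs * M := by
        rw [abs_mul, abs_of_nonneg (Nat.cast_nonneg _)]
        exact mul_le_mul (hRm m hm) h7 (abs_nonneg _) hRs0
      have h10 := abs_add_le ((S Y - S X₀) + S X₀) (order π m * (Real.log (zetaP K Y) - Real.log (Real.log Y)))
      have h11 := abs_add_le (S Y - S X₀) (S X₀)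
      have h12 : B m * (Real.log (Real.log X₀) + M) ≤ Bs * ((1 + M) * Real.log (Real.log X₀)) := by
        refine mul_le_mul (hBm m hm) ?_ (by linarith) hBs0
        nlinarith
      have h13 : Rs * M ≤ Rs * M * Real.log (Real.log X₀) := le_mul_of_one_le_right (by positivity) hll
      have h14 : (1 + Bs * (1 + M) + Rs * M) * Real.log (Real.log X₀) ≤ C * Real.log (Real.log X₀) := by
        refine mul_le_mul_of_nonneg_right ?_ (by linarith)
        rw [hC]
        linarith
      have h15 : (1 + Bs * (1 + M) + Rs * M) * Real.log (Real.log X₀) = Real.log (Real.log X₀) + Bs * ((1 + M) * Real.log (Real.log X₀)) +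
          Rs * M * Real.log (Real.log X₀) := by ring
      linarith
  have h4 : (((Q282.GK.kbox N L).filter fun ν => ¬ Typical K π ε C X₀ (T ^ c) (polynomials (Q282.GK.comb b ν))).card : ℝ) ≤
      ∑ m ∈ range (n + 1), ((E m).card : ℝ) := by
    exact_mod_cast (card_le_card h3).trans card_biUnion_le
  refine h4.trans ((sum_le_sum h1).trans ?_)
  rw [← sum_mul, ← sum_mul]
  refine mul_le_mul_of_nonneg_right (mul_le_mul_of_nonneg_right ?_ hXA.le) hP0.le
  rw [hC]
  linarith

end Pool.Agent.Results.MP_223b32_ag.PowersOfCurves
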