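import Pool.Agent.Q45.GM.Mod
import Pool.Agent.Q45.GM.Prod

/-!
# The Tate conjecture in all codimensions for products of surfaces `y ^ 2 = b(w ^ 2 - g(x))` over
finite fields

Let `k` be a finite field of odd characteristic, `g` a monic polynomial of odd degree `n` and `b` a
polynomial of degree `d` over `k`, such that `b(-g(x))` is irreducible over `k`. The surface
`X : y ^ 2 = b(w ^ 2 - g(x))` is a double plane; it is fibred over the curve `C : s ^ 2 = b(t)` by
`t = w ^ 2 - g(x)`, and the generic fibre is the hyperelliptic curve `w ^ 2 = g(x) + t` over the function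
field `K` of `C`. Let `J` be the Jacobian of this curve, `k'` an algebraic closure of `k`,
`F = k' K`, `B` the integral closure of `k'[t]` in `F`, and `M` the `ℤ_2`-module of the classes of the
continuous cocycles of `Gal(Sep F / F)` with values in the Tate module `T_2 J` which are locally
trivial at all the maximal ideals of `B`. The Frobenius of `k` acts on `M`.

Let `(b_i, g_i)` be a finite family of such pairs over the same field `k`, such that the greatest common
divisors of the degrees `N_i = n_i d_i`, for different `i`, are powers of `2`. Then the modules `M_i` are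
free of finite rank; let `φ_i` be the Frobenius on `M_i`.

(1) A product of eigenvalues of the `φ_i`, with `i` in a nonempty set `S` of indices, is different from
`1`: the Frobenius has no eigenvalue `1` on the tensor product of the `V_i = ℚ_2 ⊗ M_i`, `i` in `S`.

(2) If all the `N_i` are odd then all these products, for all sets `S` of indices, are different: the
Frobenius has distinct eigenvalues on the tensor product of the modules `ℚ_2 ⊕ V_i`.
-/

set_option autoImplicit false
set_option linter.all false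

open Polynomial IsDedekindDomain
open scoped Classical

namespace Pool.Agent.Results.MP_223b32_ag.ProductsOfSurfaces

open Pool.Agent.Y160.SL
open Pool.Agent.TH115.GD (rs ak Sep Comp)

/-- `K` is the function field of the curve `s ^ 2 = b(t)` over `k`. -/
structure IsFunctionField (k K : Type) [Field k] [Field K] [Algebra k[X] K] (b : k[X]) (s : K) :
    Prop where
  inj : Function.Injective (algebraMap k[X] K)
  sq : s ^ 2 = algebraMap k[X] K b
  gen : Subfield.closure (Set.range (algebraMap k[X] K) ∪ {s}) = ⊤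

/-- The field `F` is the extension `k' K` of `K` by the constants `k'`. -/
structure IsConstantExtension (k k' K F : Type) [Field k] [Field k'] [Algebra k k'] [Field K]
    [Algebra k[X] K] [Field F] [Algebra k'[X] F] [Algebra K F] : Prop where
  inj : Function.Injective (algebraMap k'[X] F)
  comp : ∀ p : k[X], algebraMap K F (algebraMap k[X] K p) =
    algebraMap k'[X] F (p.map (algebraMap k k'))
  gen : IntermediateField.adjoin K (Set.range ((algebraMap k'[X] F).comp C)) = ⊤

/-- The polynomial `g(x) + t` over the field `K` which contains `k[t]`. -/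
noncomputable def fPoly {k : Type} [Field k] (g : k[X]) (K : Type) [Field K] [Algebra k[X] K] : K[X] :=
  g.map ((algebraMap k[X] K).comp C) + C (algebraMap k[X] K X)

/-- The conditions on the polynomials `b` and `g` over `k`. -/
structure IsPair {k : Type} [Field k] (b g : k[X]) : Prop where
  two : (2 : k) ≠ 0
  monic : g.Monic
  odd : Odd g.natDegree
  base : 0 < b.natDegree
  irreducible : Irreducible (b.comp (-g))

section lin

/-- `α` is an eigenvalue in the extension field `E` of the endomorphism `φ` of a free `ℤ_2`-module of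
finite rank. -/
def IsEigenvalue {M : Type} [AddCommGroup M] [Module ℤ_[2] M] [Module.Finite ℤ_[2] M]
    [Module.Free ℤ_[2] M] (φ : M →ₗ[ℤ_[2]] M) {E : Type} [Field E] [Algebra ℤ_[2] E] (α : E) : Prop :=
  aeval α φ.charpoly = 0

variable {ι : Type} (M : ι → Type) [∀ i, AddCommGroup (M i)] [∀ i, Module ℤ_[2] (M i)]
  [∀ i, Module.Finite ℤ_[2] (M i)] [∀ i, Module.Free ℤ_[2] (M i)] (φ : ∀ i, M i →ₗ[ℤ_[2]] M i)
  (E : Type) [Field E] [Algebra ℤ_[2] E]

/-- The products of eigenvalues of the `φ i`, with `i` in a nonempty finite set `S` of indices, are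
different from `1`. -/
def ProductsNeOne : Prop :=
  ∀ (S : Finset ι) (α : ι → E), S.Nonempty → (∀ i ∈ S, IsEigenvalue (φ i) (α i)) → ∏ i ∈ S, α i ≠ 1

/-- The eigenvalues of each `φ i` are simple, and the products of eigenvalues of the `φ i`, with `i` in
a finite set `S` of indices, are different for different sets `S` or different eigenvalues. -/
def ProductsDistinct : Prop :=
  (∀ i, (φ i).charpoly.Separable) ∧ ∀ (S S' : Finset ι) (α β : ι → E),
    (∀ i ∈ S, IsEigenvalue (φ i) (α i)) → (∀ i ∈ S', IsEigenvalue (φ i) (β i)) →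
      ∏ i ∈ S, α i = ∏ i ∈ S', β i → S = S' ∧ ∀ i ∈ S, α i = β i

end lin

section gen

variable {K F Ω : Type} [Field K] [Field F] [Field Ω] [Algebra K F] [Algebra F Ω] [Algebra K Ω]
  [IsScalarTower K F Ω] (f : K[X])

/-- The sequences of cochains of `Gal(Ω / F)` with values in `J(Ω)`. -/
abbrev Cochain (F Ω : Type) [Field F] [Field Ω] [Algebra K Ω] [Algebra F Ω] (f : K[X]) : Type :=
  ℕ → (Ω ≃ₐ[F] Ω) → Jac 2 f Ω

/-- `c` is the coboundary of an element `R` of the Tate module `T_2 J`. -/
def IsTateCoboundary (c : Cochain F Ω f) : Prop :=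
  ∃ R : ℕ → Jac 2 f Ω, IsTM 2 2 f R ∧ ∀ n, IsCobOf 2 f (c n) (R n)

/-- The map `κ` identifies with `M` the group of the classes of the cocycles with the property `P`:
it is additive and surjective on these cocycles, and `κ c = 0` if and only if `c` is the coboundary of
an element of the Tate module. -/
structure IsClassMap (P : Cochain F Ω f → Prop) (M : Type) [AddCommGroup M]
    (κ : Cochain F Ω f → M) : Prop where
  surj : ∀ m, ∃ c, P c ∧ κ c = m
  add : ∀ c d, P c → P d → κ (c + d) = κ c + κ d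
  zero : ∀ c, P c → (κ c = 0 ↔ IsTateCoboundary f c)

/-- `d` is the transform of the cochain `c` by the automorphism `T` of `Ω` over `K`:
`d (σ) = T (c (σ'))`, where `σ' = T⁻¹ σ T`. -/
def IsTransform (T : Ω ≃ₐ[K] Ω) (c d : Cochain F Ω f) : Prop :=
  ∀ n (σ σ' : Ω ≃ₐ[F] Ω), (∀ x, T (σ' x) = σ (T x)) → d n σ = jm 2 f (ak T) (c n σ')

/-- The endomorphism `φ` of `M` is induced by the automorphism `T` of `Ω` over `K`. -/
def IsInduced (P : Cochain F Ω f → Prop) {M : Type} (κ : Cochain F Ω f → M) (T : Ω ≃ₐ[K] Ω)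
    (φ : M → M) : Prop :=
  ∀ c d, P c → IsTransform f T c d → P d ∧ κ d = φ (κ c)

end gen

section sel

variable {K F : Type} [Field K] [Field F] [Algebra K F] (B : Type) [CommRing B] [IsDedekindDomain B]
  [Algebra B F] [IsFractionRing B F] (f : K[X])

/-- The restriction of the cochain `c` to the completion of `F` at every maximal ideal of the Dedekind
domain `B` with field of fractions `F` is a coboundary. -/
def IsSelmer (c : (Sep F ≃ₐ[F] Sep F) → Jac 2 f (Sep F)) : Prop :=
  ∀ v : HeightOneSpectrum B, LocTriv 2 f (Comp B F v) (Sep (Comp B F v)) c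

/-- `c` is a continuous cocycle of `Gal(Sep F / F)` with values in the Tate module `T_2 J` which is
locally trivial at all the maximal ideals of the Dedekind domain `B` with field of fractions `F`; its
component with values in `J[2 ^ n]` is `c n`. -/
def IsSelmerCocycle (c : Cochain F (Sep F) f) : Prop :=
  IsTC 2 2 f c ∧ ∀ n, IsSelmer B f (c n)

end sel

/-- The automorphism `T` of `Sep F` over `K` acts on the constants in `k'` as the Frobenius of the
finite field `k`. -/
def IsFrobenius (k k' : Type) {K F : Type} [Field k] [Field k'] [Field K] [Field F] [Algebra K F]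
    [Algebra k'[X] F] (T : Sep F ≃ₐ[K] Sep F) : Prop :=
  ∀ x : k', T (algebraMap F (Sep F) (algebraMap k'[X] F (C x))) =
    algebraMap F (Sep F) (algebraMap k'[X] F (C (x ^ Nat.card k)))

/-- The theorem on families of surfaces. -/
def Products : Prop :=
  ∀ (k k' ι : Type) [Field k] [Finite k] [Field k'] [Algebra k k'] [IsAlgClosure k k'] [Finite ι]
    (K F B : ι → Type) [∀ i, Field (K i)] [∀ i, Algebra k[X] (K i)] [∀ i, Field (F i)]
    [∀ i, Algebra k'[X] (F i)] [∀ i, Algebra (K i) (F i)] [∀ i, CommRing (B i)]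
    [∀ i, IsDedekindDomain (B i)] [∀ i, Algebra k'[X] (B i)] [∀ i, Algebra (B i) (F i)]
    [∀ i, IsScalarTower k'[X] (B i) (F i)] [∀ i, IsFractionRing (B i) (F i)]
    [∀ i, IsIntegralClosure (B i) k'[X] (F i)] (b g : ι → k[X]) (s : ∀ i, K i),
    (∀ i, IsPair (b i) (g i)) →
    (∀ i j, i ≠ j → ∃ r : ℕ, Nat.gcd ((g i).natDegree * (b i).natDegree)
      ((g j).natDegree * (b j).natDegree) = 2 ^ r) →
    (∀ i, IsFunctionField k (K i) (b i) (s i)) → (∀ i, IsConstantExtension k k' (K i) (F i)) →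
      ∃ (M : ι → Type) (_ : ∀ i, AddCommGroup (M i)) (_ : ∀ i, Module ℤ_[2] (M i))
        (_ : ∀ i, Module.Finite ℤ_[2] (M i)) (_ : ∀ i, Module.Free ℤ_[2] (M i))
        (κ : ∀ i, Cochain (F i) (Sep (F i)) (fPoly (g i) (K i)) → M i),
        (∀ i, IsClassMap (fPoly (g i) (K i)) (IsSelmerCocycle (B i) (fPoly (g i) (K i))) (M i) (κ i)) ∧
        ∀ T : ∀ i, Sep (F i) ≃ₐ[K i] Sep (F i), (∀ i, IsFrobenius k k' (T i)) →
          ∃ φ : ∀ i, M i →ₗ[ℤ_[2]] M i,
            (∀ i, IsInduced (fPoly (g i) (K i)) (IsSelmerCocycle (B i) (fPoly (g i) (K i))) (κ i)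
              (T i) (φ i)) ∧
            ∀ (E : Type) [Field E] [Algebra ℤ_[2] E], ProductsNeOne M φ E ∧
              ((∀ i, Odd (b i).natDegree) → ProductsDistinct M φ E)

open Pool.Agent.Q45.GM (IsHE fin_of SelT clsOf clsOf_surj clsOf_add clsOf_zero clsOf_tw exists_lift
  tw_of dist_of compl_of sel_isLocal stp_of RT)

section conv

variable {K F : Type} [Field K] [Field F] [Algebra K F] {B : Type} [CommRing B] [IsDedekindDomain B]
  [Algebra B F] [IsFractionRing B F] {f : K[X]}

theorem toTC {c : Cochain F (Sep F) f} (h : IsTC 2 2 f c) : Pool.Agent.Y160.SQ.IsTC 2 2 f c :=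
  ⟨fun n => ⟨(h.coc n).lc, (h.coc n).mul⟩, h.zero, h.step⟩

theorem ofTC {c : Cochain F (Sep F) f} (h : Pool.Agent.Y160.SQ.IsTC 2 2 f c) : IsTC 2 2 f c :=
  ⟨fun n => ⟨(h.coc n).lc, (h.coc n).mul⟩, h.zero, h.step⟩

theorem selIff {c : (Sep F ≃ₐ[F] Sep F) → Jac 2 f (Sep F)} :
    IsSelmer B f c ↔ Pool.Agent.Q45.GM.IsSelmer 2 B f c := Iff.rfl

/-- The classes of the cocycles. -/
theorem classMap : IsClassMap f (IsSelmerCocycle B f) (SelT (F := F) 2 B f 2) (clsOf B f) where
  surj m := by
    obtain ⟨c, ⟨h1, h2⟩, h3⟩ := clsOf_surj B f m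
    exact ⟨c, ⟨ofTC h1, h2⟩, h3⟩
  add c d hc hd := clsOf_add B f (toTC hc.1) hc.2 (toTC hd.1) hd.2
  zero c hc := by
    refine (clsOf_zero B f (toTC hc.1) hc.2).trans ⟨?_, ?_⟩
    · rintro ⟨R, hR, h⟩
      exact ⟨R, ⟨hR.zero, hR.step⟩, h⟩
    · rintro ⟨R, hR, h⟩
      exact ⟨R, ⟨hR.zero, hR.step⟩, h⟩

end conv

/-- One surface. -/
theorem one (k k' K F B : Type) [Field k] [Finite k] [Field k'] [Algebra k k'] [hk' : IsAlgClosure k k']
    [Field K] [Algebra k[X] K] [Field F] [Algebra k'[X] F] [Algebra K F] [CommRing B]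
    [IsDedekindDomain B] [Algebra k'[X] B] [Algebra B F] [IsScalarTower k'[X] B F]
    [IsFractionRing B F] [IsIntegralClosure B k'[X] F] (b g : k[X]) (s : K) (hp : IsPair b g)
    (hK : IsFunctionField k K b s) (hF : IsConstantExtension k k' K F) :
    ∃ (M : Type) (_ : AddCommGroup M) (_ : Module ℤ_[2] M) (_ : Module.Finite ℤ_[2] M)
      (_ : Module.Free ℤ_[2] M) (κ : Cochain F (Sep F) (fPoly g K) → M),
      IsClassMap (fPoly g K) (IsSelmerCocycle B (fPoly g K)) M κ ∧
      ∀ T : Sep F ≃ₐ[K] Sep F, IsFrobenius k k' T → ∃ φ : M →ₗ[ℤ_[2]] M,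
        IsInduced (fPoly g K) (IsSelmerCocycle B (fPoly g K)) κ T φ ∧
        φ.charpoly.map (PadicInt.toZMod (p := 2)) ∣
          ∑ j ∈ Finset.range g.natDegree, (X : (ZMod 2)[X]) ^ (j * b.natDegree) := by
  haveI : IsAlgClosed k' := IsAlgClosure.isAlgClosed k
  haveI : Algebra.IsAlgebraic k k' := IsAlgClosure.isAlgebraic
  have hsep : (b.comp (-g)).Separable := PerfectField.separable_of_irreducible hp.irreducible
  have hK' : IsHE k K b s := ⟨hK.inj, hK.sq, hK.gen⟩
  have hF' : Pool.Agent.Q45.TW.IsGeom k k' K F := ⟨hF.inj, hF.comp, hF.gen⟩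
  have h12 := fin_of (B := B) hp.two hp.monic hp.odd hp.base hsep hK' hF'
  haveI h1 : Module.Finite ℤ_[2] (SelT (F := F) 2 B (fPoly g K) 2) := h12.1
  haveI h2 : Module.Free ℤ_[2] (SelT (F := F) 2 B (fPoly g K) 2) := h12.2
  haveI h1' : Module.Finite ℤ_[2] (SelT (F := F) 2 B (Pool.Agent.Q45.TW.ff g K) 2) := h12.1
  haveI h2' : Module.Free ℤ_[2] (SelT (F := F) 2 B (Pool.Agent.Q45.TW.ff g K) 2) := h12.2
  refine ⟨SelT (F := F) 2 B (fPoly g K) 2, inferInstance, inferInstance, h1, h2,
    clsOf B (fPoly g K), classMap, ?_⟩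
  intro T hT0
  letI : Fintype k := Fintype.ofFinite k
  obtain ⟨ρ, -, hρ1, hρ2⟩ := Pool.Agent.Q45.GM.JFROB.main k k' (b.comp (-g)) hp.irreducible
  have hN : 0 < (b.comp (-g)).natDegree := hp.irreducible.natDegree_pos
  haveI : NeZero (b.comp (-g)).natDegree := ⟨hN.ne'⟩
  let τ : k' ≃ₐ[k] k' := FiniteField.frobeniusAlgEquivOfAlgebraic k k'
  have hτ : ∀ x : k', τ x = x ^ Nat.card k := by
    intro x
    rw [Nat.card_eq_fintype_card]
    rfl
  have hit : ∀ i : ℕ, ρ (i : ZMod (b.comp (-g)).natDegree) = τ^[i] (ρ 0) := by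
    intro i
    induction i with
    | zero => rw [Nat.cast_zero]; rfl
    | succ i ih => rw [Function.iterate_succ_apply', ← ih, hτ, Nat.cast_succ, hρ1]
  have hT : ∀ x : k', T (algebraMap F (Sep F) (algebraMap k'[X] F (C x))) =
      algebraMap F (Sep F) (algebraMap k'[X] F (C (τ x))) := by
    intro x
    rw [hT0, hτ]
  have hcyc : ∀ r : k', aeval r (b.comp (-g)) = 0 → ∃ i : ℕ, r = τ^[i] (ρ 0) := by
    intro r hr
    obtain ⟨i, rfl⟩ := (hρ2 r).1 hr
    refine ⟨i.val, ?_⟩
    rw [← hit, ZMod.natCast_zmod_val]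
  obtain ⟨L, rfl, hL⟩ := exists_lift hF' (τ : k' ≃+* k') T hT
  have hTw := tw_of B hF' (fPoly g K) (τ : k' ≃+* k') L hL
  refine ⟨Pool.Agent.Q45.GM.tw (p := 2) (sel_isLocal 2 B (fPoly g K)) hTw, ?_, ?_⟩
  · intro c d hc hd
    obtain ⟨⟨h4, h5⟩, h6⟩ := clsOf_tw B (fPoly g K) L hTw (toTC hc.1) hc.2 hd
    exact ⟨⟨ofTC h4, h5⟩, h6⟩
  · have hS := stp_of hp.two hp.monic hp.odd hp.base hsep hK' hF'
    obtain ⟨a, ha⟩ := Pool.Agent.Y160.SQ.exists_rt (Ω := Sep F) hS.good
    have hmap : ∀ p : k[X], (p.map (algebraMap k k')).map ((τ : k' ≃+* k') : k' →+* k') =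
        p.map (algebraMap k k') := by
      intro p
      rw [Polynomial.map_map]
      congr 1
      exact RingHom.ext fun x => τ.commutes x
    have hcomp : (b.map (algebraMap k k')).comp (-(g.map (algebraMap k k'))) =
        (b.comp (-g)).map (algebraMap k k') := by
      rw [map_comp, Polynomial.map_neg]
    have hroot : ∀ r : k', r ∈ RT (b.map (algebraMap k k')) (g.map (algebraMap k k')) ↔
        aeval r (b.comp (-g)) = 0 := by
      intro r
      unfold RT
      rw [hcomp, Multiset.mem_toFinset, mem_roots (hsep.map).ne_zero, IsRoot.def,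
        eval_map_algebraMap]
    have key := hS.charpoly ha L hTw (τ : k' ≃+* k') hL (hmap g) (hmap b) (r₀ := ρ 0)
      ((hroot _).2 ((hρ2 _).2 ⟨0, rfl⟩)) (fun r hr => hcyc r ((hroot r).1 hr))
    rw [natDegree_map_eq_of_injective (algebraMap k k').injective,
      natDegree_map_eq_of_injective (algebraMap k k').injective] at key
    exact key

theorem products : Products := by
  intro k k' ι _ _ _ _ _ _ K F B _ _ _ _ _ _ _ _ _ _ _ _ b g s hp hN hK hF
  letI : Fintype ι := Fintype.ofFinite ι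
  choose M i1 i2 i3 i4 κ hκ h using fun i =>
    one k k' (K i) (F i) (B i) (b i) (g i) (s i) (hp i) (hK i) (hF i)
  refine ⟨M, i1, i2, i3, i4, κ, hκ, fun T hT => ?_⟩
  choose φ hφ1 hφ2 using fun i => h i (T i) (hT i)
  refine ⟨φ, hφ1, fun E _ _ => ?_⟩
  obtain ⟨e1, e2, e3⟩ := Pool.Agent.Q45.GM.prod_eig (φ := φ) (fun i => (hp i).odd)
    (fun i => (hp i).base) hN hφ2 E
  have ext : ∀ (S : Finset ι) (α : ι → E), (∀ i ∈ S, IsEigenvalue (φ i) (α i)) →
      (∀ i, Pool.Agent.Q45.GM.OneEig (φ i) (if i ∈ S then α i else 1)) ∧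
        ∏ i, (if i ∈ S then α i else 1) = ∏ i ∈ S, α i := by
    intro S α h1
    refine ⟨fun i => ?_, ?_⟩
    · by_cases hi : i ∈ S
      · rw [if_pos hi]
        exact Or.inr (h1 i hi)
      · rw [if_neg hi]
        exact Or.inl rfl
    · rw [Finset.prod_ite_mem, Finset.univ_inter]
  refine ⟨?_, fun hodd => ⟨fun i => ?_, ?_⟩⟩
  · rintro S α ⟨i, hi⟩ h1 h2
    obtain ⟨h3, h4⟩ := ext S α h1
    have h5 := e2 _ h3 (h4.trans h2) i
    rw [if_pos hi] at h5
    exact e1 i _ (h1 i hi) h5
  · exact (Pool.Agent.Q45.GM.hasDist_of (M i) (φ i) _ _ (hp i).odd (hodd i) (hφ2 i)).sepZ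
  · intro S S' α β h1 h2 h3
    obtain ⟨h4, h5⟩ := ext S α h1
    obtain ⟨h6, h7⟩ := ext S' β h2
    have h8 := e3 hodd _ _ h4 h6 (by rw [h5, h7, h3])
    have h9 : ∀ i, (i ∈ S ↔ i ∈ S') ∧ (i ∈ S → α i = β i) := by
      intro i
      have h10 := congrFun h8 i
      by_cases hi : i ∈ S
      · by_cases hi' : i ∈ S'
        · rw [if_pos hi, if_pos hi'] at h10
          exact ⟨⟨fun _ => hi', fun _ => hi⟩, fun _ => h10⟩
        · rw [if_pos hi, if_neg hi'] at h10
          exact absurd h10 (e1 i _ (h1 i hi))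
      · by_cases hi' : i ∈ S'
        · rw [if_neg hi, if_pos hi'] at h10
          exact absurd h10.symm (e1 i _ (h2 i hi'))
        · exact ⟨⟨fun h => absurd h hi, fun h => absurd h hi'⟩, fun h => absurd h hi⟩
    exact ⟨Finset.ext fun i => (h9 i).1, fun i hi => (h9 i).2 hi⟩

/-- The theorem on families of surfaces. -/
theorem result : Products := products

end Pool.Agent.Results.MP_223b32_ag.ProductsOfSurfaces
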