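import Pool.Agent.Q5.WL.Real
import Pool.Agent.Q5.WL.Cyc

/-!
# The analytic Tate conjecture on the pole: from thin families of number fields to all

`X` is a smooth projective variety of dimension `d` over a number field `K`, `0 ≤ m ≤ d`, and `V` is the
space `A^m(X) ⊗ ℚ` of the classes of the algebraic cycles of codimension `m` defined over the algebraic
closure, with the action `ρ` of the absolute Galois group of `K`; the theorem holds for every finite
dimensional representation `V`.  For every finite extension `F` of `K` the rank of the group of the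
classes defined over `F` is the dimension of the space of the invariants of the absolute Galois group of
`F`.  The order of the pole of `L(H^{2m}(X_F), s)` at `m + 1` is the integer `r` such that
`(s - m - 1)^r L(s)` has a finite nonzero limit as `s → m + 1` along the reals, from the right; the Euler
product is taken over all primes outside an arbitrary finite set.
-/

set_option autoImplicit false

namespace Pool.Agent.Results.MP_223b32_ag.WideFamilies

open NumberField IsDedekindDomain Filter Topology Polynomial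
open Pool.Agent.W353.EF (LFun IsFrobenius)

/-- The dimension of the space of the vectors of `V` fixed by the absolute Galois group of `F`, that is,
by all automorphisms of the algebraic closure of `K` that are trivial on the image of `F`. -/
noncomputable def rank {K : Type} [Field K] [NumberField K] {V : Type} [AddCommGroup V] [Module ℚ V]
    (ρ : Representation ℚ Gal(AlgebraicClosure K/K) V) (F : Type) [Field F] [NumberField F]
    [Algebra K F] : ℕ :=
  Module.finrank ℚ (Pool.Agent.Q5.VL.fixV ρ (IsAlgClosed.lift : F →ₐ[K] AlgebraicClosure K))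

section
variable {K : Type} [Field K] [NumberField K] {n : ℕ} (X : Set (MvPolynomial (Fin n) (𝓞 K)))
  (d m N : ℕ) {V : Type} [AddCommGroup V] [Module ℚ V]
  (ρ : Representation ℚ Gal(AlgebraicClosure K/K) V) (F : Type) [Field F] [NumberField F]
  [Algebra K F]

/-- Tate's conjecture for `X_F`: let `L` be the product of the factors `∏_j (1 - α_j q_v^{-s})⁻¹` over the
primes `v` of `F` outside a finite set `S`, where `α_1, …, α_N` are the eigenvalues of the geometric
Frobenius at `v` on `H^{2m}(X)`.  Then `(s - m - 1)^r L(s)` has a finite nonzero limit as `s → m + 1` from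
the right along the reals, where `r` is the rank over `F`. -/
def Tate : Prop :=
  ∀ (S : Finset (HeightOneSpectrum (𝓞 F))) (B : HeightOneSpectrum (𝓞 F) → ℂ[X]),
    (∀ v ∉ S, ∃ α : Fin N → ℂ, IsFrobenius X d (2 * m) v α ∧
      ∀ z : ℂ, (B v).eval z = ∏ j, (1 - α j * z)) →
    (∀ v ∈ S, B v = 1) →
    ∃ c : ℂ, c ≠ 0 ∧ Tendsto (fun s : ℝ => ((s : ℂ) - (m + 1)) ^ rank ρ F * LFun B s)
      (𝓝[>] ((m : ℝ) + 1)) (𝓝 c)

end

/-- A family of finite extensions of `K` inside the algebraic closure is wide if it is closed under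
passing to larger finite extensions, and every automorphism of the algebraic closure over `K` fixes all
elements of some member of the family. -/
def Wide (K : Type) [Field K] (𝓕 : Set (IntermediateField K (AlgebraicClosure K))) : Prop :=
  (∀ F ∈ 𝓕, FiniteDimensional K F) ∧
  (∀ F ∈ 𝓕, ∀ F' : IntermediateField K (AlgebraicClosure K), FiniteDimensional K F' → F ≤ F' →
    F' ∈ 𝓕) ∧
  ∀ σ : AlgebraicClosure K ≃ₐ[K] AlgebraicClosure K, ∃ F ∈ 𝓕, ∀ x ∈ F, σ x = x

/-- `F` is generated over `K` by finitely many `p`-th roots of positive integers all of whose prime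
factors belong to `T`, and `p ^ k` divides the degree of `F/K`. -/
def TestField (T : Set ℕ) (p k : ℕ) (K F : Type) [Field K] [Field F] [Algebra K F] : Prop :=
  (∃ S : Set F, S.Finite ∧
    (∀ x ∈ S, ∃ c : ℕ, c ≠ 0 ∧ (∀ l : ℕ, l.Prime → l ∣ c → l ∈ T) ∧ x ^ p = (c : F)) ∧
    IntermediateField.adjoin K S = ⊤) ∧
  p ^ k ∣ Module.finrank K F

/-- The law for the cyclic subgroups of the Galois group of a finite Galois extension `L/K`. -/
def CyclicLaw : Prop :=
  ∀ (K : Type) [Field K] [NumberField K] (n : ℕ) (X : Set (MvPolynomial (Fin n) (𝓞 K)))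
    (d m N : ℕ) (V : Type) [AddCommGroup V] [Module ℚ V] [FiniteDimensional ℚ V]
    (ρ : Representation ℚ Gal(AlgebraicClosure K/K) V), m ≤ d →
    ∀ L : IntermediateField K (AlgebraicClosure K), FiniteDimensional K L → Normal K L →
      (∀ (g : L ≃ₐ[K] L) [NumberField (IntermediateField.fixedField (Subgroup.zpowers g))],
        Tate X d m N ρ (IntermediateField.fixedField (Subgroup.zpowers g))) →
      Tate X d m N ρ K

/-- The law for wide families. -/
def WideLaw : Prop :=
  ∀ (K : Type) [Field K] [NumberField K] (n : ℕ) (X : Set (MvPolynomial (Fin n) (𝓞 K)))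
    (d m N : ℕ) (V : Type) [AddCommGroup V] [Module ℚ V] [FiniteDimensional ℚ V]
    (ρ : Representation ℚ Gal(AlgebraicClosure K/K) V), m ≤ d →
    ∀ 𝓕 : Set (IntermediateField K (AlgebraicClosure K)), Wide K 𝓕 →
      (∀ F ∈ 𝓕, ∀ [NumberField F], Tate X d m N ρ F) → Tate X d m N ρ K

/-- The law for the test fields of `p`, `k` and `T`. -/
def TestLaw : Prop :=
  ∀ (K : Type) [Field K] [NumberField K] (n : ℕ) (X : Set (MvPolynomial (Fin n) (𝓞 K)))
    (d m N : ℕ) (V : Type) [AddCommGroup V] [Module ℚ V] [FiniteDimensional ℚ V]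
    (ρ : Representation ℚ Gal(AlgebraicClosure K/K) V), m ≤ d →
    ∀ (p k : ℕ) (T : Set ℕ), p.Prime → (∀ l ∈ T, l.Prime) → T.Infinite →
      (∀ (F : Type) [Field F] [NumberField F] [Algebra K F], TestField T p k K F →
        Tate X d m N ρ F) → Tate X d m N ρ K

/-- The law for the degrees. -/
def DegreeLaw : Prop :=
  ∀ (K : Type) [Field K] [NumberField K] (n : ℕ) (X : Set (MvPolynomial (Fin n) (𝓞 K)))
    (d m N : ℕ) (V : Type) [AddCommGroup V] [Module ℚ V] [FiniteDimensional ℚ V]
    (ρ : Representation ℚ Gal(AlgebraicClosure K/K) V), m ≤ d →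
    ∀ M : ℕ, 0 < M →
      (∀ (F : Type) [Field F] [NumberField F] [Algebra K F], M ∣ Module.finrank K F →
        Tate X d m N ρ F) →
      ∀ (F : Type) [Field F] [NumberField F] [Algebra K F], Tate X d m N ρ F

/-- Wide families. -/
def WideExamples : Prop :=
  ∀ (K : Type) [Field K] [NumberField K],
    (∀ 𝓕 𝓖 : Set (IntermediateField K (AlgebraicClosure K)), Wide K 𝓕 → Wide K 𝓖 →
      Wide K (𝓕 ∩ 𝓖)) ∧
    ∀ M : ℕ, 0 < M → Wide K {F | FiniteDimensional K F ∧ M ∣ Module.finrank K F}

section
variable {K : Type} [Field K] [NumberField K] {n : ℕ} {X : Set (MvPolynomial (Fin n) (𝓞 K))}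
  {d m N : ℕ} {V : Type} [AddCommGroup V] [Module ℚ V]
  {ρ : Representation ℚ Gal(AlgebraicClosure K/K) V} {F : Type} [Field F] [NumberField F]
  [Algebra K F]

theorem tate_iff : Tate X d m N ρ F ↔ ∀ (S : Finset (HeightOneSpectrum (𝓞 F)))
    (B : HeightOneSpectrum (𝓞 F) → ℂ[X]), Pool.Agent.Q5.WL.IsLoc X d (2 * m) N S B →
      Pool.Agent.Q5.WL.RealPole (2 * m) B (Pool.Agent.Q5.VL.rk ρ F) := by
  have key : ∀ B : HeightOneSpectrum (𝓞 F) → ℂ[X], (∃ c : ℂ, c ≠ 0 ∧
      Tendsto (fun s : ℝ => ((s : ℂ) - (m + 1)) ^ rank ρ F * LFun B s)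
        (𝓝[>] ((m : ℝ) + 1)) (𝓝 c)) ↔
      Pool.Agent.Q5.WL.RealPole (2 * m) B (Pool.Agent.Q5.VL.rk ρ F) := by
    intro B
    unfold Pool.Agent.Q5.WL.RealPole
    have h1 : (((2 * m : ℕ) : ℂ) / 2 + 1) = (m : ℂ) + 1 := by
      push_cast
      ring
    have h2 : (fun ε : ℝ => (ε : ℂ) ^ Pool.Agent.Q5.VL.rk ρ F *
        LFun B (((2 * m : ℕ) : ℂ) / 2 + 1 + ε)) = (fun s : ℝ => ((s : ℂ) - (m + 1)) ^ rank ρ F *
          LFun B s) ∘ (fun ε : ℝ => (m : ℝ) + 1 + ε) := by
      funext ε
      simp only [Function.comp]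
      have h3 : (((m : ℝ) + 1 + ε : ℝ) : ℂ) = (m : ℂ) + 1 + ε := by push_cast; ring
      rw [h1, h3, add_sub_cancel_left]
      rfl
    have h4 : 𝓝[>] ((m : ℝ) + 1) = Filter.map (fun ε : ℝ => (m : ℝ) + 1 + ε) (𝓝[>] 0) := by
      have h5 := map_add_left_nhdsGT (c := (m : ℝ) + 1) (a := (0 : ℝ))
      rw [add_zero] at h5
      exact h5.symm
    rw [h2, h4]
    simp only [Filter.tendsto_map'_iff]
  unfold Tate
  exact ⟨fun h S B hB => (key B).1 (h S B hB.1 hB.2), fun h S B h1 h2 => (key B).2 (h S B ⟨h1, h2⟩)⟩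

/-- the property of the fields -/
def QT (X : Set (MvPolynomial (Fin n) (𝓞 K))) (d m N : ℕ)
    (ρ : Representation ℚ Gal(AlgebraicClosure K/K) V) (F : Type) [Field F] [NumberField F]
    [Algebra K F] (t : ℤ) : Prop :=
  t ≠ 0 → ∀ (S : Finset (HeightOneSpectrum (𝓞 F))) (B : HeightOneSpectrum (𝓞 F) → ℂ[X]),
    Pool.Agent.Q5.WL.IsLoc X d (2 * m) N S B →
      Pool.Agent.Q5.WL.RealPole (2 * m) B (Pool.Agent.Q5.VL.rk ρ F)

theorem isLaw_QT [FiniteDimensional ℚ V] (h : m ≤ d) : Pool.Agent.Q5.VL.IsLaw (QT X d m N ρ) :=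
  Pool.Agent.Q5.WL.law_real (by omega) (fun _ _ => inferInstance)

end

/-- **Tate's conjecture on the pole at the edge can be tested on thin families of number fields.**  Let
`K` be a number field, `X` a smooth projective variety over `K` of dimension `d`, `0 ≤ m ≤ d`, and
`V = A^m(X) ⊗ ℚ`, or any finite dimensional rational representation of the absolute Galois group of `K`.
The conjecture `Tate` over `F` says that `(s - m - 1)^r L(H^{2m}(X_F), s)` has a finite nonzero limit as
`s → m + 1` from the right, where `r` is the rank of the group of the classes defined over `F`; no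
continuation is presupposed.
1. Let `L/K` be a finite Galois extension.  If `Tate` holds for the fields `E` between `K` and `L` with
`L/E` cyclic, it holds for `K`.
2. Let `𝓕` be a wide family of finite extensions of `K`.  If `Tate` holds for all `F` in `𝓕`, it holds
for `K`.
3. The intersection of two wide families is wide, and the extensions of degree divisible by `M` form a wide
family.
4. Let `p` be a prime, `k` a number and `T` an infinite set of primes.  If `Tate` holds for all `F/K` of
degree divisible by `p^k` generated by finitely many `p`-th roots of positive integers all of whose prime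
factors belong to `T`, it holds for `K`.
5. Let `M > 0`.  If `Tate` holds for all finite extensions `F/K` with `M ∣ [F:K]`, it holds for all
finite extensions of `K`. -/
theorem result : CyclicLaw ∧ WideLaw ∧ WideExamples ∧ TestLaw ∧ DegreeLaw := by
  refine ⟨?_, ?_, fun K _ _ => ⟨fun 𝓕 𝓖 h1 h2 => Pool.Agent.Q5.HR.Wide.inter h1 h2, fun M hM =>
    Pool.Agent.Q5.HR.wide_deg hM⟩, ?_, ?_⟩
  · intro K _ _ n X d m N V _ _ _ ρ hmd L hfd hnor h
    rw [tate_iff]
    refine Pool.Agent.Q5.WL.cyclic_law L (isLaw_QT (X := X) (N := N) (ρ := ρ) hmd) 1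
      (fun g _ _ => tate_iff.1 (h g)) ?_
    rw [mul_one]
    exact_mod_cast (Nat.card_pos (α := L ≃ₐ[K] L)).ne'
  · intro K _ _ n X d m N V _ _ _ ρ hmd 𝓕 hF h
    obtain ⟨t, ht, hw⟩ := Pool.Agent.Q5.VL.wide_law (K := K) hF
    rw [tate_iff]
    refine hw _ (isLaw_QT (X := X) (N := N) (ρ := ρ) hmd) 1
      (fun F hF' _ _ => tate_iff.1 (h F hF')) ?_
    rw [mul_one]
    exact_mod_cast ht.ne'
  · intro K _ _ n X d m N V _ _ _ ρ hmd p k T hp hT hinf h
    have hpf : Fact p.Prime := ⟨hp⟩
    rw [tate_iff]
    refine Pool.Agent.Q5.VL.gen_radical_law' (isLaw_QT (X := X) (N := N) (ρ := ρ) hmd) p hT hinf k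
      (fun F _ _ _ hr hd _ => tate_iff.1 (h F ⟨hr, hd⟩)) ?_
    exact_mod_cast pow_ne_zero k hp.ne_zero
  · intro K _ _ n X d m N V _ _ _ ρ hmd M hM h F _ _ _
    rw [tate_iff]
    refine Pool.Agent.Q5.VL.gen_power_law' (isLaw_QT (X := X) (N := N) (ρ := ρ) hmd) (M := M)
      (fun F _ _ _ hF _ => tate_iff.1 (h F hF)) F ?_
    exact_mod_cast (Nat.div_pos (Nat.le_of_dvd hM (Nat.gcd_dvd_left _ _))
      (Nat.gcd_pos_of_pos_left _ hM)).ne'

end Pool.Agent.Results.MP_223b32_ag.WideFamilies
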